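import Pool.Agent.H23.GB.TargetsA

/-!
Row FEC of the board gb: the functional equation, with values in the complex numbers.
-/

set_option autoImplicit false

namespace Pool.Agent.H16.GB

open MeasureTheory Pool.Agent.H34.GM Pool.Agent.H34.GZ Pool.Agent.H34.GU Pool.Agent.H34.GA

theorem pf_FEC (hP1 : T_PA1) (hP2 : T_PA2) : Pool.Agent.H23.GB.T_FEC := by
  intro m N _ T D hS H xv hFr F lam hF hNZ Φ hΦ hAd r hr
  have h1 := hP1 m N T D hS F lam hF.toHecA Φ hΦ.toTg r hr
  have h2 := hP2 m N T D hS H xv hFr F lam hF hNZ Φ hΦ hAd r hr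
  rw [h1] at h2
  exact h2

end Pool.Agent.H16.GB
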