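import Pool.Agent.H34.GU.Targets1

/-!
Board gb: the three lattices with a neighbourhood of size `δ`.
-/

namespace Pool.Agent.H16.GB

open MeasureTheory Pool.Agent.H34.GM Pool.Agent.H34.GZ Pool.Agent.H34.GU

/-- the inequality for the exponents, with a shift -/
def T_IN3D : Prop := ∀ (m : ℕ) (x y z : Fin m → ℝ) (d : ℝ), Monotone x → Monotone y →
  Monotone z → (∀ i, y i ≤ x i) → (∀ i, y i ≤ z i) →
    ∑ i, ∑ j, (max (y j - x i) 0 + max (y j - z i) 0 + max (x i - z j - d) 0) ≤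
      m * max (∑ i, x i - ∑ i, z i - m * d) 0 +
        ∑ i, ∑ j, (if i < j then (x j - x i) + (y j - y i) + (z j - z i) else 0)

/-- the product estimate -/
def T_EG3D : Prop := ∀ (m : ℕ) (c : ℝ), 1 ≤ m → 0 < c → ∃ C : ℝ, 0 < C ∧
  ∀ (U B A : Fin m → ℝ) (Q w δ : ℝ), (∀ i, 0 < U i) → (∀ i, 0 < B i) → (∀ i, 0 < A i) →
    Monotone U → Monotone B → Monotone A → 0 < Q → 0 < w → 0 < δ →
    (∀ i, A i ≤ c * U i) → (∀ i, A i ≤ c * B i) → ∏ i, U i ≤ c * w * ∏ i, A i →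
    ∏ i, B i ≤ c * Q * ∏ i, A i → Q * ∏ i, A i ≤ c * ∏ i, B i →
    ∏ i, ∏ j, ((1 + U i / A j) * (1 + B i / A j) * (1 + δ * (U i / B j))) ≤
      C * w ^ m * Q ^ m * (1 + δ ^ m * w / Q) ^ m * skw A * skw U * skw B

open Classical in
/-- the energy of two sublattices -/
def T_EGMD : Prop := ∀ m : ℕ, 1 ≤ m → ∀ C0 ε : ℝ, 0 ≤ C0 → 0 < ε → ∃ (C : ℝ) (K : ℕ), 0 < C ∧
  ∀ (N : ℕ), 1 ≤ N → ∀ (b n : Mat m) (a : Fin m → ℝ) (k : Mat m), Sgl b n a k →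
  1 ≤ aN b → aN b < Real.exp 1 → ∀ Y : ℝ, 1 ≤ Y →
  (∀ i j : Fin m, (i : ℕ) + 1 = j → a j ≤ Y * a i) → ∀ y δ : ℝ, 1 ≤ y → 0 < δ → δ ≤ 1 →
  ∀ (sel : AddSubgroup (Fin m → ℤ) → ZM m) (vs : AddSubgroup (Fin m → ℤ) → Fin m → ℝ),
  Sel b sel vs →
    ∑' M : AddSubgroup (Fin m → ℤ), ∑' L : AddSubgroup (Fin m → ℤ),
      (if M.index = N ∧ y ^ 2 / 4 < (L.index : ℝ) ∧ (L.index : ℝ) ≤ y ^ 2 then
        (NL (sel L) : ENNReal) ^ 2 *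
          ENNReal.ofReal (∏ i, ∏ j, (1 + C0 * δ * vs L i / vs M j)) else 0) ≤
      ENNReal.ofReal (C * (1 + Real.log (y * Y * N)) ^ K * (N : ℝ) ^ ((m : ℝ) - 1 + ε) *
        y ^ (2 * m) * (1 + δ ^ m * y ^ 2 / N) ^ m * skw a)

end Pool.Agent.H16.GB
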